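import Mathlib

/-!
# The support of the variance-profile deterministic equivalent is a disc

MP_44eb1e_pr, Q1, full answer (TRUE): for every irreducible nonnegative `A` the support of the
deterministic equivalent `μ_A` is connected; it is the closed disc of radius `√ρ(V)`.

Proof. For a positive solution `(q, qt)` of the Master Equations at `s` put
`P_ij = q_i V_ij qt_j`. The row sums and the column sums of `P` are both equal to
`r_i = q_i (V qt)_i ∈ (0,1)`, and `q_i qt_i = r_i (1 - r_i) / s²`, while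
`F_A(s) = (1/n) ∑ (1 - r_i)`. These are the stationarity equations of a concave functional of `P`
that is affine in `log s²` with slope `∑ (1 - r_i)`; this gives (by Gibbs' inequality)
the monotonicity of `F_A`, and in the case of equality `P` is the same for both values of `s`, which is
excluded by `q_i qt_i = r_i (1 - r_i) / s²` (`strict_mono`). The existence of the positive
solution for `s < √ρ(V)` is also proved here (`exists_solution`), by minimising
`∑ (y_i - 1 + e^{-y_i})`, `y_i = log ((V w)_i / (s² w_i))`, over positive vectors `w`.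
-/

set_option autoImplicit false

open MeasureTheory Set Filter Topology
open scoped Matrix ENNReal NNReal

namespace Pool.Agent.Results.MP_44eb1e_pr.SupportIsDisc

/-- The variance matrix `V = (σ_ij² / n)`. -/
noncomputable def V {n : ℕ} (σ : Matrix (Fin n) (Fin n) ℝ) : Matrix (Fin n) (Fin n) ℝ :=
  Matrix.of fun i j => σ i j ^ 2 / n

/-- The spectral radius of `V`. -/
noncomputable def rho {n : ℕ} (σ : Matrix (Fin n) (Fin n) ℝ) : ℝ :=
  (spectralRadius ℂ ((V σ).map (algebraMap ℝ ℂ))).toReal

/-- The digraph with an edge `i → j` whenever `σ_ij > 0` is strongly connected. -/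
def Irreducible {n : ℕ} (σ : Matrix (Fin n) (Fin n) ℝ) : Prop :=
  ∀ i j : Fin n, Relation.ReflTransGen (fun a b => 0 < σ a b) i j

/-- `(q, qt)` solves the Master Equations at `s`. -/
structure IsSolution {n : ℕ} (σ : Matrix (Fin n) (Fin n) ℝ) (s : ℝ) (q qt : Fin n → ℝ) :
    Prop where
  nonneg : ∀ i, 0 ≤ q i
  nonneg' : ∀ i, 0 ≤ qt i
  eq : ∀ i, q i = ((V σ)ᵀ *ᵥ q) i / (s ^ 2 + (V σ *ᵥ qt) i * ((V σ)ᵀ *ᵥ q) i)
  eq' : ∀ i, qt i = (V σ *ᵥ qt) i / (s ^ 2 + (V σ *ᵥ qt) i * ((V σ)ᵀ *ᵥ q) i)
  sum_eq : ∑ i, q i = ∑ i, qt i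

/-- `(q, qt)` is the selected solution `(q(s), qt(s))`: zero for `s ≥ √ρ(V)` and nonzero for
`s < √ρ(V)`. -/
def IsSelected {n : ℕ} (σ : Matrix (Fin n) (Fin n) ℝ) (s : ℝ) (q qt : Fin n → ℝ) : Prop :=
  IsSolution σ s q qt ∧ (√(rho σ) ≤ s → q = 0 ∧ qt = 0) ∧ (s < √(rho σ) → ¬ (q = 0 ∧ qt = 0))

/-- `μ` is the deterministic equivalent `μ_A`: a radially symmetric probability measure on `ℂ` with
`μ {|z| ≤ s} = F_A(s) = 1 - ⟨q(s), V qt(s)⟩ / n` for all `s > 0`. -/
def IsDetEquiv {n : ℕ} (σ : Matrix (Fin n) (Fin n) ℝ) (μ : Measure ℂ) : Prop :=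
  IsProbabilityMeasure μ ∧ (∀ u : ℂ, ‖u‖ = 1 → μ.map (fun z => u * z) = μ) ∧
    ∀ s : ℝ, 0 < s → ∀ q qt : Fin n → ℝ, IsSelected σ s q qt →
      μ {z : ℂ | ‖z‖ ≤ s} = ENNReal.ofReal (1 - 1 / (n : ℝ) * (q ⬝ᵥ (V σ *ᵥ qt)))

section master

variable {n : ℕ} {σ : Matrix (Fin n) (Fin n) ℝ}

lemma V_nonneg (i j : Fin n) : 0 ≤ V σ i j := by
  unfold V; simp only [Matrix.of_apply]; positivity

lemma V_pos (hn : 1 ≤ n) {i j : Fin n} (h : 0 < σ i j) : 0 < V σ i j := by
  unfold V; simp only [Matrix.of_apply]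
  have : (0 : ℝ) < n := by exact_mod_cast hn
  positivity

lemma mv (w : Fin n → ℝ) (i : Fin n) : (V σ *ᵥ w) i = ∑ j, V σ i j * w j := rfl

lemma tmv (w : Fin n → ℝ) (i : Fin n) : ((V σ)ᵀ *ᵥ w) i = ∑ j, V σ j i * w j := rfl

lemma mulVec_nonneg {w : Fin n → ℝ} (hw : ∀ i, 0 ≤ w i) (i : Fin n) : 0 ≤ (V σ *ᵥ w) i := by
  rw [mv]; exact Finset.sum_nonneg fun j _ => mul_nonneg (V_nonneg i j) (hw j)

lemma tmulVec_nonneg {w : Fin n → ℝ} (hw : ∀ i, 0 ≤ w i) (i : Fin n) :
    0 ≤ ((V σ)ᵀ *ᵥ w) i := by
  rw [tmv]; exact Finset.sum_nonneg fun j _ => mul_nonneg (V_nonneg j i) (hw j)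

/-- nonzero solutions are positive -/
lemma pos_of_ne_zero (hn : 1 ≤ n) (hirr : Irreducible σ) {s : ℝ} (hs : 0 < s) {q qt : Fin n → ℝ}
    (h : IsSolution σ s q qt) (h0 : ¬ (q = 0 ∧ qt = 0)) : (∀ i, 0 < q i) ∧ ∀ i, 0 < qt i := by
  have hden : ∀ i, 0 < s ^ 2 + (V σ *ᵥ qt) i * ((V σ)ᵀ *ᵥ q) i := fun i => by
    have := mul_nonneg (mulVec_nonneg (σ := σ) h.nonneg' i) (tmulVec_nonneg (σ := σ) h.nonneg i)
    positivity
  -- both are nonzero
  have hq0 : q ≠ 0 := by
    intro hq
    refine h0 ⟨hq, ?_⟩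
    have h1 := h.sum_eq
    rw [hq] at h1
    simp only [Pi.zero_apply, Finset.sum_const_zero] at h1
    have h2 := (Finset.sum_eq_zero_iff_of_nonneg (fun i _ => h.nonneg' i)).1 h1.symm
    funext i
    exact h2 i (Finset.mem_univ i)
  have hqt0 : qt ≠ 0 := by
    intro hq
    refine h0 ⟨?_, hq⟩
    have h1 := h.sum_eq
    rw [hq] at h1
    simp only [Pi.zero_apply, Finset.sum_const_zero] at h1
    have h2 := (Finset.sum_eq_zero_iff_of_nonneg (fun i _ => h.nonneg i)).1 h1
    funext i
    exact h2 i (Finset.mem_univ i)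
  obtain ⟨i0, hi0⟩ : ∃ i, 0 < q i := by
    by_contra hcon
    push Not at hcon
    exact hq0 (funext fun i => le_antisymm (hcon i) (h.nonneg i))
  obtain ⟨j0, hj0⟩ : ∃ i, 0 < qt i := by
    by_contra hcon
    push Not at hcon
    exact hqt0 (funext fun i => le_antisymm (hcon i) (h.nonneg' i))
  constructor
  · intro i
    have hstep : ∀ a b, 0 < σ a b → 0 < q a → 0 < q b := by
      intro a b hab ha
      rw [h.eq b]
      refine div_pos ?_ (hden b)
      refine Finset.sum_pos' (fun j _ => mul_nonneg (V_nonneg j b) (h.nonneg j))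
        ⟨a, Finset.mem_univ a, mul_pos (V_pos hn hab) ha⟩
    have := hirr i0 i
    induction this with
    | refl => exact hi0
    | tail _ hab ih => exact hstep _ _ hab ih
  · intro i
    have hstep : ∀ a b, 0 < σ a b → 0 < qt b → 0 < qt a := by
      intro a b hab ha
      rw [h.eq' a]
      refine div_pos ?_ (hden a)
      refine Finset.sum_pos' (fun j _ => mul_nonneg (V_nonneg a j) (h.nonneg' j))
        ⟨b, Finset.mem_univ b, mul_pos (V_pos hn hab) ha⟩
    have := hirr i j0
    induction this using Relation.ReflTransGen.head_induction_on with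
    | refl => exact hj0
    | head hab _ ih => exact hstep _ _ hab ih

/-- properties of a positive solution: with `r_i = q_i (V qt)_i` one has `r_i ∈ (0,1)`,
`r_i = qt_i (Vᵀ q)_i` and `q_i qt_i = r_i (1 - r_i) / s²`. -/
lemma sol_facts {s : ℝ} (hs : 0 < s) {q qt : Fin n → ℝ} (h : IsSolution σ s q qt)
    (hq : ∀ i, 0 < q i) (hqt : ∀ i, 0 < qt i) (i : Fin n) :
    0 < q i * (V σ *ᵥ qt) i ∧ q i * (V σ *ᵥ qt) i < 1 ∧
      qt i * ((V σ)ᵀ *ᵥ q) i = q i * (V σ *ᵥ qt) i ∧
      q i * qt i = (q i * (V σ *ᵥ qt) i) * (1 - q i * (V σ *ᵥ qt) i) / s ^ 2 := by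
  set x := (V σ *ᵥ qt) i with hx
  set y := ((V σ)ᵀ *ᵥ q) i with hy
  have hx0 : 0 ≤ x := mulVec_nonneg h.nonneg' i
  have hy0 : 0 ≤ y := tmulVec_nonneg h.nonneg i
  have hden : 0 < s ^ 2 + x * y := by positivity
  have e1 : q i = y / (s ^ 2 + x * y) := h.eq i
  have e2 : qt i = x / (s ^ 2 + x * y) := h.eq' i
  have hy1 : 0 < y := by
    rcases hy0.lt_or_eq with h1 | h1
    · exact h1
    · rw [← h1, zero_div] at e1
      exact absurd e1 (hq i).ne'
  have hx1 : 0 < x := by
    rcases hx0.lt_or_eq with h1 | h1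
    · exact h1
    · rw [← h1, zero_div] at e2
      exact absurd e2 (hqt i).ne'
  refine ⟨mul_pos (hq i) hx1, ?_, ?_, ?_⟩
  · rw [e1, div_mul_eq_mul_div, div_lt_one hden]
    have : 0 < s ^ 2 := by positivity
    nlinarith
  · rw [e1, e2]; ring
  · rw [e1, e2]
    field_simp
    ring

lemma term_ineq {x y : ℝ} (hx : 0 < x) (hy : 0 < y) : 0 ≤ (x - y) * (Real.log x - Real.log y) := by
  rcases le_total x y with h | h
  · exact mul_nonneg_of_nonpos_of_nonpos (by linarith) (by linarith [Real.log_le_log hx h])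
  · exact mul_nonneg (by linarith) (by linarith [Real.log_le_log hy h])

lemma eq_of_term_eq {x y : ℝ} (hx : 0 < x) (hy : 0 < y)
    (h : (x - y) * (Real.log x - Real.log y) = 0) : x = y := by
  rcases mul_eq_zero.1 h with h | h
  · linarith
  · exact Real.log_injOn_pos (Set.mem_Ioi.2 hx) (Set.mem_Ioi.2 hy) (by linarith)

/-- `F_A` is strictly increasing where the selected solution is positive. -/
lemma strict_mono {a b : ℝ} (ha : 0 < a) (hab : a < b) {q qt p pt : Fin n → ℝ} (hn : 1 ≤ n)
    (h : IsSolution σ a q qt) (hq : ∀ i, 0 < q i) (hqt : ∀ i, 0 < qt i)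
    (h' : IsSolution σ b p pt) (hp : ∀ i, 0 < p i) (hpt : ∀ i, 0 < pt i) :
    p ⬝ᵥ (V σ *ᵥ pt) < q ⬝ᵥ (V σ *ᵥ qt) := by
  have hb : 0 < b := ha.trans hab
  set r : Fin n → ℝ := fun i => q i * (V σ *ᵥ qt) i with hr
  set t : Fin n → ℝ := fun i => p i * (V σ *ᵥ pt) i with ht
  have fr := sol_facts ha h hq hqt
  have ft := sol_facts hb h' hp hpt
  have hr0 : ∀ i, 0 < r i := fun i => (fr i).1
  have ht0 : ∀ i, 0 < t i := fun i => (ft i).1
  have hr1 : ∀ i, r i < 1 := fun i => (fr i).2.1
  have ht1 : ∀ i, t i < 1 := fun i => (ft i).2.1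
  set c : ℝ := Real.log (b ^ 2) - Real.log (a ^ 2) with hc
  have hc0 : 0 < c := by
    have : a ^ 2 < b ^ 2 := by gcongr
    have := Real.log_lt_log (by positivity) this
    linarith
  set α : Fin n → ℝ := fun i => Real.log (q i) - Real.log (p i) with hα
  set β : Fin n → ℝ := fun i => Real.log (qt i) - Real.log (pt i) with hβ
  have hαβ : ∀ i, α i + β i = (Real.log (r i) - Real.log (t i)) +
      (Real.log (1 - r i) - Real.log (1 - t i)) + c := by
    intro i
    have e1 : Real.log (q i) + Real.log (qt i) =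
        Real.log (r i) + Real.log (1 - r i) - Real.log (a ^ 2) := by
      rw [← Real.log_mul (hq i).ne' (hqt i).ne', (fr i).2.2.2,
        Real.log_div (mul_pos (hr0 i) (by linarith [hr1 i])).ne' (by positivity),
        Real.log_mul (hr0 i).ne' (by linarith [hr1 i])]
    have e2 : Real.log (p i) + Real.log (pt i) =
        Real.log (t i) + Real.log (1 - t i) - Real.log (b ^ 2) := by
      rw [← Real.log_mul (hp i).ne' (hpt i).ne', (ft i).2.2.2,
        Real.log_div (mul_pos (ht0 i) (by linarith [ht1 i])).ne' (by positivity),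
        Real.log_mul (ht0 i).ne' (by linarith [ht1 i])]
    simp only [hα, hβ, hc]
    linarith
  set P : Fin n → Fin n → ℝ := fun i j => q i * V σ i j * qt j with hP
  set R : Fin n → Fin n → ℝ := fun i j => p i * V σ i j * pt j with hR
  have hProw : ∀ i, ∑ j, P i j = r i := by
    intro i
    simp only [hP, hr, mv, Finset.mul_sum]
    exact Finset.sum_congr rfl fun j _ => by ring
  have hRrow : ∀ i, ∑ j, R i j = t i := by
    intro i
    simp only [hR, ht, mv, Finset.mul_sum]
    exact Finset.sum_congr rfl fun j _ => by ring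
  have hPcol : ∀ j, ∑ i, P i j = r j := by
    intro j
    show ∑ i, P i j = q j * (V σ *ᵥ qt) j
    rw [← (fr j).2.2.1]
    simp only [hP, tmv, Finset.mul_sum]
    exact Finset.sum_congr rfl fun i _ => by ring
  have hRcol : ∀ j, ∑ i, R i j = t j := by
    intro j
    show ∑ i, R i j = p j * (V σ *ᵥ pt) j
    rw [← (ft j).2.2.1]
    simp only [hR, tmv, Finset.mul_sum]
    exact Finset.sum_congr rfl fun i _ => by ring
  have hlogPR : ∀ i j, 0 < V σ i j → Real.log (P i j) - Real.log (R i j) = α i + β j := by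
    intro i j hij
    simp only [hP, hR, hα, hβ]
    rw [Real.log_mul (mul_pos (hq i) hij).ne' (hqt j).ne', Real.log_mul (hq i).ne' hij.ne',
      Real.log_mul (mul_pos (hp i) hij).ne' (hpt j).ne', Real.log_mul (hp i).ne' hij.ne']
    ring
  -- the double sum
  have hdouble : ∑ i, ∑ j, (P i j - R i j) * (α i + β j) = ∑ i, (r i - t i) * (α i + β i) := by
    have e1 : ∑ i, ∑ j, (P i j - R i j) * (α i + β j) =
        ∑ i, ∑ j, (P i j - R i j) * α i + ∑ j, ∑ i, (P i j - R i j) * β j := by
      rw [Finset.sum_comm (f := fun j i => (P i j - R i j) * β j), ← Finset.sum_add_distrib]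
      refine Finset.sum_congr rfl fun i _ => ?_
      rw [← Finset.sum_add_distrib]
      exact Finset.sum_congr rfl fun j _ => by ring
    rw [e1, ← Finset.sum_add_distrib]
    refine Finset.sum_congr rfl fun i _ => ?_
    rw [← Finset.sum_mul, ← Finset.sum_mul, Finset.sum_sub_distrib, Finset.sum_sub_distrib,
      hProw, hRrow, hPcol, hRcol]
    ring
  -- Gibbs' inequality
  have hgibbs : ∀ i, (r i - t i) * (Real.log (r i) - Real.log (t i)) ≤
      ∑ j, (P i j - R i j) * (α i + β j) := by
    intro i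
    have key : ∀ j, (P i j - R i j * (r i / t i)) + (R i j - P i j * (t i / r i)) ≤
        (P i j - R i j) * (α i + β j) -
          (P i j - R i j) * (Real.log (r i) - Real.log (t i)) := by
      intro j
      rcases (V_nonneg (σ := σ) i j).lt_or_eq with hij | hij
      · have hPp : 0 < P i j := mul_pos (mul_pos (hq i) hij) (hqt j)
        have hRp : 0 < R i j := mul_pos (mul_pos (hp i) hij) (hpt j)
        rw [← hlogPR i j hij]
        set x := R i j * (r i / t i) / P i j with hx
        have hx0 : 0 < x := div_pos (mul_pos hRp (div_pos (hr0 i) (ht0 i))) hPp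
        have hlx : Real.log x = Real.log (R i j) + (Real.log (r i) - Real.log (t i))
            - Real.log (P i j) := by
          rw [hx, Real.log_div (mul_pos hRp (div_pos (hr0 i) (ht0 i))).ne' hPp.ne',
            Real.log_mul hRp.ne' (div_pos (hr0 i) (ht0 i)).ne',
            Real.log_div (hr0 i).ne' (ht0 i).ne']
        have h1 := Real.log_le_sub_one_of_pos hx0
        have h2 := Real.log_le_sub_one_of_pos (inv_pos.2 hx0)
        rw [Real.log_inv] at h2
        have h3 : P i j * (-Real.log x) ≥ P i j - R i j * (r i / t i) := by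
          have : P i j * x = R i j * (r i / t i) := by
            rw [hx]; field_simp
          nlinarith
        have h4 : R i j * Real.log x ≥ R i j - P i j * (t i / r i) := by
          have : R i j * x⁻¹ = P i j * (t i / r i) := by
            rw [hx]
            have := (hr0 i).ne'
            have := (ht0 i).ne'
            field_simp
          nlinarith
        have e : (P i j - R i j) * (Real.log (P i j) - Real.log (R i j)) -
            (P i j - R i j) * (Real.log (r i) - Real.log (t i)) =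
            P i j * (-Real.log x) + R i j * Real.log x := by
          rw [hlx]; ring
        rw [e]
        linarith
      · have hP0 : P i j = 0 := by simp [hP, ← hij]
        have hR0 : R i j = 0 := by simp [hR, ← hij]
        rw [hP0, hR0]
        simp
    have hsum := Finset.sum_le_sum fun j (_ : j ∈ Finset.univ) => key j
    rw [Finset.sum_add_distrib, Finset.sum_sub_distrib, Finset.sum_sub_distrib,
      Finset.sum_sub_distrib, ← Finset.sum_mul, ← Finset.sum_mul, ← Finset.sum_mul,
      Finset.sum_sub_distrib, hProw, hRrow] at hsum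
    have e1 : t i * (r i / t i) = r i := by field_simp [(ht0 i).ne']
    have e2 : r i * (t i / r i) = t i := by field_simp [(hr0 i).ne']
    rw [e1, e2] at hsum
    linarith
  have hmain : ∑ i, (r i - t i) * (Real.log (1 - t i) - Real.log (1 - r i)) ≤
      c * ∑ i, (r i - t i) := by
    have h1 := Finset.sum_le_sum fun i (_ : i ∈ Finset.univ) => hgibbs i
    rw [hdouble] at h1
    have h2 : ∑ i, (r i - t i) * (α i + β i) =
        ∑ i, (r i - t i) * (Real.log (r i) - Real.log (t i)) -
          ∑ i, (r i - t i) * (Real.log (1 - t i) - Real.log (1 - r i)) +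
          c * ∑ i, (r i - t i) := by
      rw [Finset.mul_sum, ← Finset.sum_sub_distrib, ← Finset.sum_add_distrib]
      refine Finset.sum_congr rfl fun i _ => ?_
      rw [hαβ i]; ring
    linarith
  have hterm : ∀ i, 0 ≤ (r i - t i) * (Real.log (1 - t i) - Real.log (1 - r i)) := by
    intro i
    have := term_ineq (x := 1 - t i) (y := 1 - r i) (by linarith [ht1 i]) (by linarith [hr1 i])
    have e : 1 - t i - (1 - r i) = r i - t i := by ring
    rwa [e] at this
  have hsumr : q ⬝ᵥ (V σ *ᵥ qt) = ∑ i, r i := rfl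
  have hsumt : p ⬝ᵥ (V σ *ᵥ pt) = ∑ i, t i := rfl
  rw [hsumr, hsumt]
  by_contra hcon
  push Not at hcon
  have hle : ∑ i, (r i - t i) ≤ 0 := by rw [Finset.sum_sub_distrib]; linarith
  have hzero : ∑ i, (r i - t i) * (Real.log (1 - t i) - Real.log (1 - r i)) = 0 := by
    refine le_antisymm ?_ (Finset.sum_nonneg fun i _ => hterm i)
    nlinarith
  have hrt : ∀ i, r i = t i := by
    intro i
    have h1 := (Finset.sum_eq_zero_iff_of_nonneg (fun i _ => hterm i)).1 hzero i
      (Finset.mem_univ i)
    have h2 := eq_of_term_eq (x := 1 - t i) (y := 1 - r i) (by linarith [ht1 i])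
      (by linarith [hr1 i]) (by
        have e : 1 - t i - (1 - r i) = r i - t i := by ring
        rw [e]; exact h1)
    linarith
  -- then P = R
  have hPR0 : ∑ i, ∑ j, (P i j - R i j) * (α i + β j) = 0 := by
    rw [hdouble]
    exact Finset.sum_eq_zero fun i _ => by rw [hrt i]; ring
  have hPRterm : ∀ i j, 0 ≤ (P i j - R i j) * (α i + β j) := by
    intro i j
    rcases (V_nonneg (σ := σ) i j).lt_or_eq with hij | hij
    · rw [← hlogPR i j hij]
      exact term_ineq (mul_pos (mul_pos (hq i) hij) (hqt j))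
        (mul_pos (mul_pos (hp i) hij) (hpt j))
    · have hP0 : P i j = 0 := by simp [hP, ← hij]
      have hR0 : R i j = 0 := by simp [hR, ← hij]
      rw [hP0, hR0]; simp
  have hedge : ∀ i j, 0 < V σ i j → α i + β j = 0 := by
    intro i j hij
    have h1 := (Finset.sum_eq_zero_iff_of_nonneg
      (fun i _ => Finset.sum_nonneg fun j _ => hPRterm i j)).1 hPR0 i (Finset.mem_univ i)
    have h2 := (Finset.sum_eq_zero_iff_of_nonneg (fun j _ => hPRterm i j)).1 h1 j
      (Finset.mem_univ j)
    rw [← hlogPR i j hij] at h2 ⊢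
    have h3 := eq_of_term_eq (mul_pos (mul_pos (hq i) hij) (hqt j))
      (mul_pos (mul_pos (hp i) hij) (hpt j)) h2
    have h4 : P i j = R i j := h3
    rw [h4]; ring
  have hαβc : ∀ i, α i + β i = c := by
    intro i
    rw [hαβ i, hrt i]; ring
  have : Nonempty (Fin n) := ⟨⟨0, by omega⟩⟩
  obtain ⟨i, hi⟩ := Finite.exists_max α
  obtain ⟨j, hj⟩ : ∃ j, 0 < V σ i j := by
    by_contra hcon2
    push Not at hcon2
    have : (V σ *ᵥ qt) i = 0 := by
      rw [mv]
      exact Finset.sum_eq_zero fun j _ => by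
        rw [le_antisymm (hcon2 j) (V_nonneg i j), zero_mul]
    have h1 := hr0 i
    simp only [hr, this, mul_zero] at h1
    exact lt_irrefl _ h1
  have h1 := hedge i j hj
  have h2 := hαβc j
  have h3 := hi j
  linarith

/-- If `V w ≤ c w` for a positive vector `w`, then `ρ(V) ≤ c`. -/
lemma rho_le {w : Fin n → ℝ} (hw : ∀ i, 0 < w i) {c : ℝ} (hc : 0 ≤ c)
    (h : ∀ i, (V σ *ᵥ w) i ≤ c * w i) : rho σ ≤ c := by
  unfold rho
  refine ENNReal.toReal_le_of_le_ofReal hc ?_
  unfold spectralRadius
  refine iSup₂_le fun k hk => ?_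
  have hk' : k ∈ spectrum ℂ (Matrix.toLin' ((V σ).map (algebraMap ℝ ℂ))) := by
    rwa [Matrix.spectrum_toLin']
  rw [← Module.End.hasEigenvalue_iff_mem_spectrum] at hk'
  obtain ⟨x, hx⟩ := hk'.exists_hasEigenvector
  have hx0 : x ≠ 0 := hx.2
  have hxe : ∀ i, ∑ j, (V σ i j : ℂ) * x j = k * x i := by
    intro i
    have h1 := hx.apply_eq_smul
    have h2 := congrFun h1 i
    simpa [Matrix.mulVec, dotProduct] using h2
  obtain ⟨i1, hi1⟩ : ∃ i, x i ≠ 0 := by
    by_contra hcon
    push Not at hcon
    exact hx0 (funext hcon)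
  have : Nonempty (Fin n) := ⟨i1⟩
  obtain ⟨i, hi⟩ := Finite.exists_max fun i => ‖x i‖ / w i
  set M := ‖x i‖ / w i with hM
  have hM0 : 0 < M := lt_of_lt_of_le (div_pos (norm_pos_iff.2 hi1) (hw i1)) (hi i1)
  have hxj : ∀ j, ‖x j‖ ≤ M * w j := fun j => by
    have := hi j
    rwa [div_le_iff₀ (hw j)] at this
  have hxi : ‖x i‖ = M * w i := by rw [hM]; field_simp [(hw i).ne']
  have h1 : ‖k‖ * ‖x i‖ ≤ c * ‖x i‖ := by
    calc ‖k‖ * ‖x i‖ = ‖∑ j, (V σ i j : ℂ) * x j‖ := by rw [hxe i, norm_mul]
      _ ≤ ∑ j, ‖(V σ i j : ℂ) * x j‖ := norm_sum_le _ _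
      _ ≤ ∑ j, V σ i j * (M * w j) := by
          refine Finset.sum_le_sum fun j _ => ?_
          rw [norm_mul, Complex.norm_real, Real.norm_of_nonneg (V_nonneg i j)]
          exact mul_le_mul_of_nonneg_left (hxj j) (V_nonneg i j)
      _ = M * (V σ *ᵥ w) i := by
          rw [mv, Finset.mul_sum]
          exact Finset.sum_congr rfl fun j _ => by ring
      _ ≤ M * (c * w i) := mul_le_mul_of_nonneg_left (h i) hM0.le
      _ = c * ‖x i‖ := by rw [hxi]; ring
  have h2 : ‖k‖ ≤ c := by
    have : 0 < ‖x i‖ := by rw [hxi]; exact mul_pos hM0 (hw i)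
    exact le_of_mul_le_mul_right h1 this
  rw [ENNReal.le_ofReal_iff_toReal_le ENNReal.coe_ne_top hc]
  simpa using h2

lemma exists_out (hσ : ∀ i j, 0 ≤ σ i j) (hirr : Irreducible σ) (hrho : 0 < rho σ) (i : Fin n) :
    ∃ j, 0 < σ i j := by
  by_contra hcon
  push Not at hcon
  have hall : ∀ j, j = i := by
    intro j
    rcases Relation.ReflTransGen.cases_head (hirr i j) with h | ⟨c, hc, _⟩
    · exact h.symm
    · exact absurd hc (not_lt.2 (hcon c))
  have hV : ∀ a b, V σ a b = 0 := by
    intro a b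
    rw [hall a, hall b]
    have : σ i i = 0 := le_antisymm (hcon i) (hσ i i)
    unfold V
    simp [this]
  have := rho_le (σ := σ) (w := fun _ => 1) (fun _ => one_pos) le_rfl (c := 0) (fun j => by
    rw [mv]; simp [hV])
  linarith

/-- the functional whose minimiser gives the solution -/
noncomputable def Y (σ : Matrix (Fin n) (Fin n) ℝ) (s : ℝ) (u : Fin n → ℝ) (i : Fin n) : ℝ :=
  Real.log ((V σ *ᵥ fun j => Real.exp (u j)) i) - u i - Real.log (s ^ 2)

/-- the functional whose minimiser gives the solution -/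
noncomputable def G (σ : Matrix (Fin n) (Fin n) ℝ) (s : ℝ) (u : Fin n → ℝ) : ℝ :=
  ∑ i, (Y σ s u i - 1 + Real.exp (-(Y σ s u i)))

lemma G_term_nonneg (y : ℝ) : 0 ≤ y - 1 + Real.exp (-y) := by
  have := Real.add_one_le_exp (-y)
  linarith

lemma mvexp_pos (hn : 1 ≤ n) (hout : ∀ i, ∃ j, 0 < σ i j) (u : Fin n → ℝ) (i : Fin n) :
    0 < (V σ *ᵥ fun j => Real.exp (u j)) i := by
  obtain ⟨j, hj⟩ := hout i
  rw [mv]
  exact Finset.sum_pos' (fun k _ => mul_nonneg (V_nonneg i k) (Real.exp_pos _).le)
    ⟨j, Finset.mem_univ j, mul_pos (V_pos hn hj) (Real.exp_pos _)⟩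

lemma G_continuous (hn : 1 ≤ n) (hout : ∀ i, ∃ j, 0 < σ i j) (s : ℝ) : Continuous (G σ s) := by
  have hY : ∀ i, Continuous fun u => Y σ s u i := by
    intro i
    unfold Y
    refine ((Continuous.log ?_ fun u => (mvexp_pos hn hout u i).ne').sub
      (continuous_apply i)).sub continuous_const
    simp only [mv]
    exact continuous_finsetSum _ fun j _ =>
      continuous_const.mul (Real.continuous_exp.comp (continuous_apply j))
  unfold G
  exact continuous_finsetSum _ fun i _ =>
    ((hY i).sub continuous_const).add (Real.continuous_exp.comp (hY i).neg)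

lemma G_shift (hn : 1 ≤ n) (hout : ∀ i, ∃ j, 0 < σ i j) (s : ℝ) (u : Fin n → ℝ) (c : ℝ) :
    G σ s (fun j => u j - c) = G σ s u := by
  have hY : ∀ i, Y σ s (fun j => u j - c) i = Y σ s u i := by
    intro i
    unfold Y
    have h1 : (V σ *ᵥ fun j => Real.exp (u j - c)) i =
        (V σ *ᵥ fun j => Real.exp (u j)) i * Real.exp (-c) := by
      rw [mv, mv, Finset.sum_mul]
      exact Finset.sum_congr rfl fun j _ => by rw [sub_eq_add_neg, Real.exp_add]; ring
    rw [h1, Real.log_mul (mvexp_pos hn hout u i).ne' (Real.exp_pos _).ne', Real.log_exp]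
    ring
  unfold G
  exact Finset.sum_congr rfl fun i _ => by rw [hY]

lemma G_min (hn : 1 ≤ n) (hout : ∀ i, ∃ j, 0 < σ i j) (hirr : Irreducible σ) (s : ℝ) :
    ∃ u : Fin n → ℝ, ∀ v, G σ s u ≤ G σ s v := by
  have hstep : ∀ i j, ∃ C : ℝ, ∀ u : Fin n → ℝ, G σ s u ≤ G σ s 0 → u j - u i ≤ C := by
    intro i j
    have hpath := hirr i j
    induction hpath with
    | refl => exact ⟨0, fun u _ => by simp⟩
    | @tail k l _ hkl ih =>
      obtain ⟨C, hC⟩ := ih
      refine ⟨C + (G σ s 0 + 1 + Real.log (s ^ 2) - Real.log (V σ k l)), fun u hu => ?_⟩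
      have h1 := hC u hu
      have hVkl := V_pos hn hkl
      have h2 : Real.log (V σ k l) + u l ≤ Real.log ((V σ *ᵥ fun j => Real.exp (u j)) k) := by
        rw [← Real.log_exp (u l), ← Real.log_mul hVkl.ne' (Real.exp_pos _).ne']
        apply Real.log_le_log (mul_pos hVkl (Real.exp_pos _))
        rw [mv]
        exact Finset.single_le_sum (f := fun j => V σ k j * Real.exp (u j))
          (fun j _ => mul_nonneg (V_nonneg k j) (Real.exp_pos _).le) (Finset.mem_univ l)
      have h3 : Y σ s u k - 1 ≤ G σ s u := by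
        have : Y σ s u k - 1 + Real.exp (-(Y σ s u k)) ≤ G σ s u :=
          Finset.single_le_sum (f := fun i => Y σ s u i - 1 + Real.exp (-(Y σ s u i)))
            (fun j _ => G_term_nonneg _) (Finset.mem_univ k)
        have := Real.exp_pos (-(Y σ s u k))
        linarith
      unfold Y at h3
      linarith
  choose C hC using hstep
  set B : ℝ := ∑ i, ∑ j, |C i j| with hB
  have hCB : ∀ i j, C i j ≤ B := fun i j =>
    (le_abs_self _).trans ((Finset.single_le_sum (f := fun j => |C i j|)
      (fun j _ => abs_nonneg _) (Finset.mem_univ j)).trans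
      (Finset.single_le_sum (f := fun i => ∑ j, |C i j|)
        (fun i _ => Finset.sum_nonneg fun j _ => abs_nonneg _) (Finset.mem_univ i)))
  have hB0 : 0 ≤ B := Finset.sum_nonneg fun i _ => Finset.sum_nonneg fun j _ => abs_nonneg _
  obtain ⟨u, hu, hmin⟩ := (isCompact_closedBall (0 : Fin n → ℝ) B).exists_isMinOn
    ⟨0, Metric.mem_closedBall_self hB0⟩ (G_continuous hn hout s).continuousOn
  refine ⟨u, fun v => ?_⟩
  set i0 : Fin n := ⟨0, by omega⟩ with hi0
  have h1 := G_shift hn hout s v (v i0)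
  rw [← h1]
  set v' : Fin n → ℝ := fun j => v j - v i0 with hv'
  by_cases hle : G σ s v' ≤ G σ s 0
  · apply hmin
    rw [mem_closedBall_zero_iff, pi_norm_le_iff_of_nonneg hB0]
    intro j
    rw [Real.norm_eq_abs, abs_le]
    have e0 : v' i0 = 0 := by simp [hv']
    constructor
    · have := (hC j i0 v' hle).trans (hCB j i0)
      rw [e0] at this
      linarith
    · have := (hC i0 j v' hle).trans (hCB i0 j)
      rw [e0] at this
      linarith
  · have : G σ s u ≤ G σ s 0 := hmin (Metric.mem_closedBall_self hB0)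
    linarith

/-- existence of a positive solution below `√ρ(V)` -/
lemma exists_solution (hn : 1 ≤ n) (hσ : ∀ i j, 0 ≤ σ i j) (hirr : Irreducible σ) {s : ℝ}
    (hs : 0 < s) (hsr : s ^ 2 < rho σ) : ∃ q qt : Fin n → ℝ, IsSolution σ s q qt ∧
      (∀ i, 0 < q i) ∧ ∀ i, 0 < qt i := by
  have hout := exists_out hσ hirr (lt_trans (by positivity) hsr)
  obtain ⟨u, hu⟩ := G_min hn hout hirr s
  set w : Fin n → ℝ := fun j => Real.exp (u j) with hw
  have hw0 : ∀ j, 0 < w j := fun j => Real.exp_pos _
  set x : Fin n → ℝ := fun i => (V σ *ᵥ w) i with hx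
  have hx0 : ∀ i, 0 < x i := fun i => mvexp_pos hn hout u i
  set r : Fin n → ℝ := fun i => 1 - s ^ 2 * w i / x i with hr
  have hexpY : ∀ i, Real.exp (-(Y σ s u i)) = s ^ 2 * w i / x i := by
    intro i
    unfold Y
    have : -(Real.log ((V σ *ᵥ fun j => Real.exp (u j)) i) - u i - Real.log (s ^ 2)) =
        Real.log (s ^ 2) + u i - Real.log (x i) := by simp only [hx, hw]; ring
    rw [this, Real.exp_sub, Real.exp_add, Real.exp_log (by positivity), Real.exp_log (hx0 i)]
  -- stationarity
  have hstat : ∀ k, ∑ i, r i * (V σ i k * w k / x i) = r k := by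
    intro k
    set d : Fin n → ℝ := fun j => if j = k then 1 else 0 with hd
    have hder1 : ∀ i, HasDerivAt (fun t : ℝ => (V σ *ᵥ fun j => Real.exp (u j + t * d j)) i)
        (V σ i k * w k) 0 := by
      intro i
      have h1 : HasDerivAt (fun t : ℝ => ∑ j, V σ i j * Real.exp (u j + t * d j))
          (∑ j, V σ i j * (Real.exp (u j + 0 * d j) * (1 * d j))) 0 := by
        refine HasDerivAt.fun_sum fun j _ => ?_
        exact ((((hasDerivAt_id (0 : ℝ)).mul_const (d j)).const_add (u j)).exp).const_mul _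
      have h2 : ∑ j, V σ i j * (Real.exp (u j + 0 * d j) * (1 * d j)) = V σ i k * w k := by
        rw [Finset.sum_eq_single k]
        · simp [hd, hw]
        · intro j _ hj; simp [hd, hj]
        · intro h; exact absurd (Finset.mem_univ k) h
      rw [h2] at h1
      exact h1
    have hder2 : ∀ i, HasDerivAt (fun t : ℝ => Y σ s (fun j => u j + t * d j) i)
        (V σ i k * w k / x i - d i) 0 := by
      intro i
      unfold Y
      have h1 := (hder1 i).log (by
        have : (fun j => Real.exp (u j + 0 * d j)) = w := by funext j; simp [hw]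
        rw [this]; exact (hx0 i).ne')
      have h2 : HasDerivAt (fun t : ℝ => u i + t * d i) (1 * d i) 0 :=
        ((hasDerivAt_id (0 : ℝ)).mul_const (d i)).const_add (u i)
      have h3 := (h1.sub h2).sub_const (Real.log (s ^ 2))
      have e : (fun j => Real.exp (u j + 0 * d j)) = w := by funext j; simp [hw]
      rw [e, one_mul] at h3
      exact h3
    have hder3 : HasDerivAt (fun t : ℝ => G σ s (fun j => u j + t * d j))
        (∑ i, ((V σ i k * w k / x i - d i) + s ^ 2 * w i / x i * (-(V σ i k * w k / x i - d i))))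
        0 := by
      unfold G
      refine HasDerivAt.fun_sum fun i _ => ?_
      have h1 := ((hder2 i).sub_const 1).add (hder2 i).neg.exp
      have e : Real.exp (-(Y σ s (fun j => u j + 0 * d j) i)) = s ^ 2 * w i / x i := by
        have : (fun j => u j + 0 * d j) = u := by funext j; simp
        rw [this, hexpY]
      simp only [Pi.neg_apply] at h1
      rw [e] at h1
      exact h1
    have hmin : IsLocalMin (fun t : ℝ => G σ s (fun j => u j + t * d j)) 0 := by
      refine Filter.Eventually.of_forall fun t => ?_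
      have : (fun j => u j + 0 * d j) = u := by funext j; simp
      simp only [this]
      exact hu _
    have h0 := hmin.hasDerivAt_eq_zero hder3
    have h1 : ∑ i, ((V σ i k * w k / x i - d i) +
        s ^ 2 * w i / x i * (-(V σ i k * w k / x i - d i))) =
        ∑ i, r i * (V σ i k * w k / x i) - ∑ i, r i * d i := by
      rw [← Finset.sum_sub_distrib]
      refine Finset.sum_congr rfl fun i _ => ?_
      simp only [hr]; ring
    rw [h1] at h0
    have h2 : ∑ i, r i * d i = r k := by
      rw [Finset.sum_eq_single k]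
      · simp [hd]
      · intro j _ hj; simp [hd, hj]
      · intro h; exact absurd (Finset.mem_univ k) h
    linarith
  have hPi : ∀ i, ∑ k, V σ i k * w k / x i = 1 := by
    intro i
    rw [← Finset.sum_div]
    exact div_self (hx0 i).ne'
  have hPi0 : ∀ i k, 0 ≤ V σ i k * w k / x i := fun i k =>
    div_nonneg (mul_nonneg (V_nonneg i k) (hw0 k).le) (hx0 i).le
  -- positivity
  have hex : ∃ i, 0 < r i := by
    by_contra hcon
    push Not at hcon
    have h1 : ∀ i, (V σ *ᵥ w) i ≤ s ^ 2 * w i := by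
      intro i
      have h2 := hcon i
      simp only [hr] at h2
      have h3 : 1 ≤ s ^ 2 * w i / x i := by linarith
      rwa [le_div_iff₀ (hx0 i), one_mul] at h3
    exact absurd (rho_le hw0 (by positivity) h1) (not_le.2 hsr)
  have hplus : ∀ k, max (r k) 0 ≤ ∑ i, max (r i) 0 * (V σ i k * w k / x i) := by
    intro k
    refine max_le ?_ (Finset.sum_nonneg fun i _ => mul_nonneg (le_max_right _ _) (hPi0 i k))
    rw [← hstat k]
    exact Finset.sum_le_sum fun i _ => mul_le_mul_of_nonneg_right (le_max_left _ _) (hPi0 i k)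
  have hplus' : ∀ k, max (r k) 0 = ∑ i, max (r i) 0 * (V σ i k * w k / x i) := by
    have h1 : ∑ k, (∑ i, max (r i) 0 * (V σ i k * w k / x i) - max (r k) 0) = 0 := by
      rw [Finset.sum_sub_distrib, Finset.sum_comm]
      simp only [← Finset.mul_sum, hPi, mul_one, sub_self]
    intro k
    have h2 := (Finset.sum_eq_zero_iff_of_nonneg (fun k _ => sub_nonneg.2 (hplus k))).1 h1 k
      (Finset.mem_univ k)
    linarith
  have hrpos : ∀ i, 0 < r i := by
    obtain ⟨i0, hi0⟩ := hex
    intro i
    have hstep : ∀ a b, 0 < σ a b → 0 < r a → 0 < r b := by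
      intro a b hab ha
      have h1 : 0 < max (r b) 0 := by
        rw [hplus' b]
        refine Finset.sum_pos' (fun i _ => mul_nonneg (le_max_right _ _) (hPi0 i b))
          ⟨a, Finset.mem_univ a, ?_⟩
        exact mul_pos (lt_max_of_lt_left ha)
          (div_pos (mul_pos (V_pos hn hab) (hw0 b)) (hx0 a))
      rcases lt_max_iff.1 h1 with h | h
      · exact h
      · exact absurd h (lt_irrefl _)
    have := hirr i0 i
    induction this with
    | refl => exact hi0
    | tail _ hab ih => exact hstep _ _ hab ih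
  -- the unnormalised solution
  set q : Fin n → ℝ := fun i => r i / x i with hq
  have hq0 : ∀ i, 0 < q i := fun i => div_pos (hrpos i) (hx0 i)
  have hphi : ∀ k, ((V σ)ᵀ *ᵥ q) k = r k / w k := by
    intro k
    rw [tmv, eq_div_iff (hw0 k).ne', ← hstat k, Finset.sum_mul]
    exact Finset.sum_congr rfl fun i _ => by simp only [hq]; ring
  have h1r : ∀ i, x i * (1 - r i) = s ^ 2 * w i := by
    intro i
    simp only [hr]
    field_simp [(hx0 i).ne']
    ring
  set A : ℝ := ∑ i, q i with hA
  set B : ℝ := ∑ i, w i with hB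
  have : Nonempty (Fin n) := ⟨⟨0, by omega⟩⟩
  have hA0 : 0 < A := Finset.sum_pos (fun i _ => hq0 i) Finset.univ_nonempty
  have hB0 : 0 < B := Finset.sum_pos (fun i _ => hw0 i) Finset.univ_nonempty
  set c : ℝ := √(B / A) with hc
  have hc0 : 0 < c := Real.sqrt_pos.2 (div_pos hB0 hA0)
  have hc2 : c ^ 2 = B / A := Real.sq_sqrt (div_pos hB0 hA0).le
  have hV1 : ∀ i, (V σ *ᵥ fun j => w j / c) i = x i / c := by
    intro i
    simp only [hx, mv, Finset.sum_div]
    exact Finset.sum_congr rfl fun j _ => by ring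
  have hV2 : ∀ i, ((V σ)ᵀ *ᵥ fun j => c * q j) i = c * (r i / w i) := by
    intro i
    rw [← hphi i, tmv, tmv, Finset.mul_sum]
    exact Finset.sum_congr rfl fun j _ => by ring
  refine ⟨fun i => c * q i, fun i => w i / c, ⟨fun i => (mul_pos hc0 (hq0 i)).le,
    fun i => (div_pos (hw0 i) hc0).le, fun i => ?_, fun i => ?_, ?_⟩,
    fun i => mul_pos hc0 (hq0 i), fun i => div_pos (hw0 i) hc0⟩
  · rw [hV1, hV2]
    have e1 : x i / c * (c * (r i / w i)) = x i * r i / w i := by field_simp [hc0.ne', (hw0 i).ne']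
    have e2 : s ^ 2 + x i * r i / w i = x i / w i := by
      have := h1r i
      field_simp [(hw0 i).ne']
      linarith
    rw [e1, e2]
    simp only [hq]
    field_simp [(hw0 i).ne', (hx0 i).ne']
  · rw [hV1, hV2]
    have e1 : x i / c * (c * (r i / w i)) = x i * r i / w i := by field_simp [hc0.ne', (hw0 i).ne']
    have e2 : s ^ 2 + x i * r i / w i = x i / w i := by
      have := h1r i
      field_simp [(hw0 i).ne']
      linarith
    rw [e1, e2]
    field_simp [(hw0 i).ne', (hx0 i).ne', hc0.ne']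
  · rw [← Finset.mul_sum, ← Finset.sum_div]
    show c * A = B / c
    rw [eq_div_iff hc0.ne']
    have : c * A * c = c ^ 2 * A := by ring
    rw [this, hc2]
    field_simp [hA0.ne']

lemma zero_solution (s : ℝ) : IsSolution σ s 0 0 := by
  refine ⟨fun i => le_rfl, fun i => le_rfl, fun i => ?_, fun i => ?_, rfl⟩ <;> simp

/-- the selected solution exists -/
lemma exists_selected (hn : 1 ≤ n) (hσ : ∀ i j, 0 ≤ σ i j) (hirr : Irreducible σ) {s : ℝ}
    (hs : 0 < s) : ∃ q qt : Fin n → ℝ, IsSelected σ s q qt := by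
  by_cases h : s < √(rho σ)
  · have h1 : s ^ 2 < rho σ := (Real.lt_sqrt hs.le).1 h
    obtain ⟨q, qt, hsol, hq, hqt⟩ := exists_solution hn hσ hirr hs h1
    refine ⟨q, qt, hsol, fun h2 => absurd h (not_lt.2 h2), fun _ h3 => ?_⟩
    have := hq ⟨0, by omega⟩
    rw [h3.1] at this
    exact lt_irrefl _ this
  · exact ⟨0, 0, zero_solution s, fun _ => ⟨rfl, rfl⟩, fun h2 => absurd h2 h⟩

end master

/-- the support of a radially symmetric probability measure with strictly increasing radial
distribution function on `(0, R)` which is `1` on `(R, ∞)` -/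
lemma support_radial {μ : Measure ℂ} [IsProbabilityMeasure μ]
    (hrad : ∀ u : ℂ, ‖u‖ = 1 → μ.map (fun z => u * z) = μ) {R : ℝ} (hR : 0 ≤ R)
    (h1 : ∀ s, R < s → μ {z : ℂ | ‖z‖ ≤ s} = 1)
    (h2 : ∀ a b, 0 < a → a < b → b < R → μ {z : ℂ | ‖z‖ ≤ a} < μ {z : ℂ | ‖z‖ ≤ b}) :
    μ.support = Metric.closedBall (0 : ℂ) R := by
  have hcb : ∀ s, {z : ℂ | ‖z‖ ≤ s} = Metric.closedBall (0 : ℂ) s := fun s => by
    ext z; simp
  apply Subset.antisymm
  · intro z hz
    rw [mem_closedBall_zero_iff]
    refine le_of_forall_gt_imp_ge_of_dense fun s hs => ?_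
    have h3 : μ.support ⊆ Metric.closedBall (0 : ℂ) s := by
      refine Measure.support_subset_of_isClosed Metric.isClosed_closedBall ?_
      rw [← hcb, mem_ae_iff, prob_compl_eq_zero_iff]
      · exact h1 s hs
      · rw [hcb]; exact Metric.isClosed_closedBall.measurableSet
    exact mem_closedBall_zero_iff.1 (h3 hz)
  · rcases hR.eq_or_lt with hR0 | hR0
    · -- `R = 0`
      have hsub : μ.support ⊆ {0} := by
        intro z hz
        have h4 : ‖z‖ ≤ 0 := by
          refine le_of_forall_gt_imp_ge_of_dense fun s hs => ?_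
          have h3 : μ.support ⊆ Metric.closedBall (0 : ℂ) s := by
            refine Measure.support_subset_of_isClosed Metric.isClosed_closedBall ?_
            rw [← hcb, mem_ae_iff, prob_compl_eq_zero_iff]
            · exact h1 s (by rw [← hR0]; exact hs)
            · rw [hcb]; exact Metric.isClosed_closedBall.measurableSet
          exact mem_closedBall_zero_iff.1 (h3 hz)
        exact norm_le_zero_iff.1 h4
      obtain ⟨z, hz⟩ : μ.support.Nonempty := by
        rw [Set.nonempty_iff_ne_empty]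
        intro hemp
        have h5 : μ μ.supportᶜ = 0 := Measure.measure_compl_support
        rw [hemp, compl_empty, measure_univ] at h5
        exact one_ne_zero h5
      rw [← hR0, Metric.closedBall_zero]
      intro x hx
      rw [mem_singleton_iff] at hx
      rw [hx, ← hsub hz]
      exact hz
    · have hball : Metric.ball (0 : ℂ) R ⊆ μ.support := by
        intro z hz
        rw [mem_ball_zero_iff] at hz
        by_contra hcon
        rw [Measure.notMem_support_iff_exists] at hcon
        obtain ⟨U, hU, hU0⟩ := hcon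
        obtain ⟨ε, hε, hεU⟩ := Metric.mem_nhds_iff.1 hU
        have hnull : μ (Metric.ball z ε) = 0 := measure_mono_null hεU hU0
        -- all points at the same distance have null balls
        have hrot : ∀ u : ℂ, ‖u‖ = 1 → μ (Metric.ball (u * z) ε) = 0 := by
          intro u hu
          have hm : Measurable fun w : ℂ => u * w := measurable_const_mul u
          rw [← hrad u hu, Measure.map_apply hm Metric.isOpen_ball.measurableSet]
          refine measure_mono_null ?_ hnull
          intro w hw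
          rw [mem_preimage, Metric.mem_ball, dist_eq_norm] at hw
          rw [Metric.mem_ball, dist_eq_norm]
          have : u * w - u * z = u * (w - z) := by ring
          rwa [this, norm_mul, hu, one_mul] at hw
        set s1 : ℝ := max (‖z‖ - ε) 0 with hs1
        set s2 : ℝ := min (‖z‖ + ε) R with hs2
        have hs12 : s1 < s2 := by
          rw [hs1, hs2, max_lt_iff, lt_min_iff, lt_min_iff]
          have := norm_nonneg z
          exact ⟨⟨by linarith, by linarith⟩, by linarith, hR0⟩
        have hann : {w : ℂ | s1 < ‖w‖ ∧ ‖w‖ < s2} ⊆ μ.supportᶜ := by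
          intro w hw
          have hw1 : 0 < ‖w‖ := lt_of_le_of_lt (le_max_right _ _) hw.1
          have hw2 : ‖z‖ - ε < ‖w‖ := lt_of_le_of_lt (le_max_left _ _) hw.1
          have hw3 : ‖w‖ < ‖z‖ + ε := lt_of_lt_of_le hw.2 (min_le_left _ _)
          rw [mem_compl_iff, Measure.notMem_support_iff_exists]
          -- the point of modulus `‖z‖` in the direction of `w`
          obtain ⟨u, hu, huz⟩ : ∃ u : ℂ, ‖u‖ = 1 ∧ u * z = (‖z‖ / ‖w‖ : ℝ) * w := by
            by_cases hz0 : z = 0
            · exact ⟨1, norm_one, by simp [hz0]⟩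
            · have hzn : 0 < ‖z‖ := norm_pos_iff.2 hz0
              refine ⟨(‖z‖ / ‖w‖ : ℝ) * w / z, ?_, by field_simp⟩
              rw [norm_div, norm_mul, Complex.norm_real, Real.norm_of_nonneg (by positivity)]
              field_simp
          refine ⟨Metric.ball (u * z) ε, Metric.isOpen_ball.mem_nhds ?_, hrot u hu⟩
          rw [Metric.mem_ball, dist_eq_norm, huz]
          have : w - ((‖z‖ / ‖w‖ : ℝ) : ℂ) * w = (((‖w‖ - ‖z‖) / ‖w‖ : ℝ) : ℂ) * w := by
            push_cast
            have : (‖w‖ : ℂ) ≠ 0 := by exact_mod_cast hw1.ne'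
            field_simp
          rw [this, norm_mul, Complex.norm_real, norm_div, Real.norm_of_nonneg hw1.le,
            div_mul_cancel₀ _ hw1.ne', Real.norm_eq_abs, abs_lt]
          constructor <;> linarith
        have hann0 : μ {w : ℂ | s1 < ‖w‖ ∧ ‖w‖ < s2} = 0 :=
          measure_mono_null hann Measure.measure_compl_support
        -- contradiction with strict monotonicity
        obtain ⟨a, ha1, ha2⟩ := exists_between hs12
        obtain ⟨b, hb1, hb2⟩ := exists_between ha2
        have ha0 : 0 < a := lt_of_le_of_lt (le_max_right _ _) ha1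
        have hbR : b < R := lt_of_lt_of_le hb2 (min_le_right _ _)
        have hlt := h2 a b ha0 hb1 hbR
        have hle : μ {z : ℂ | ‖z‖ ≤ b} ≤ μ {z : ℂ | ‖z‖ ≤ a} := by
          calc μ {z : ℂ | ‖z‖ ≤ b} ≤ μ ({z : ℂ | ‖z‖ ≤ a} ∪ {w : ℂ | s1 < ‖w‖ ∧ ‖w‖ < s2}) := by
                refine measure_mono fun w hw => ?_
                by_cases hwa : ‖w‖ ≤ a
                · exact Or.inl hwa
                · exact Or.inr ⟨ha1.trans (not_le.1 hwa), lt_of_le_of_lt hw hb2⟩
            _ ≤ μ {z : ℂ | ‖z‖ ≤ a} + μ {w : ℂ | s1 < ‖w‖ ∧ ‖w‖ < s2} := measure_union_le _ _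
            _ = μ {z : ℂ | ‖z‖ ≤ a} := by rw [hann0, add_zero]
        exact absurd hlt (not_lt.2 hle)
      rw [← closure_ball (0 : ℂ) hR0.ne']
      exact closure_minimal hball Measure.isClosed_support

/-- **Full answer to Q1 (affirmative).** For every `n ≥ 1` and every irreducible nonnegative `A`,
every deterministic equivalent `μ_A` has connected support; indeed its support is the closed disc
of radius `√ρ(V)`. -/
theorem result {n : ℕ} (hn : 1 ≤ n) (A : Matrix (Fin n) (Fin n) ℝ) (hA : ∀ i j, 0 ≤ A i j)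
    (hirr : Irreducible A) (μ : Measure ℂ) (hμ : IsDetEquiv A μ) :
    IsConnected μ.support ∧ μ.support = Metric.closedBall (0 : ℂ) (√(rho A)) := by
  obtain ⟨hprob, hrad, hF⟩ := hμ
  have hsupp : μ.support = Metric.closedBall (0 : ℂ) (√(rho A)) := by
    apply support_radial hrad (Real.sqrt_nonneg _)
    · intro s hs
      have hs0 : 0 < s := lt_of_le_of_lt (Real.sqrt_nonneg _) hs
      rw [hF s hs0 0 0 ⟨zero_solution s, fun _ => ⟨rfl, rfl⟩, fun h => absurd h (not_lt.2 hs.le)⟩]
      simp
    · intro a b ha hab hb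
      have hb0 : 0 < b := ha.trans hab
      obtain ⟨q, qt, hq⟩ := exists_selected hn hA hirr ha
      obtain ⟨p, pt, hp⟩ := exists_selected hn hA hirr hb0
      have hpq := pos_of_ne_zero hn hirr ha hq.1 (hq.2.2 (hab.trans hb))
      have hpp := pos_of_ne_zero hn hirr hb0 hp.1 (hp.2.2 hb)
      have hlt := strict_mono ha hab hn hq.1 hpq.1 hpq.2 hp.1 hpp.1 hpp.2
      rw [hF a ha q qt hq, hF b hb0 p pt hp]
      have hn0 : (0 : ℝ) < n := by exact_mod_cast hn
      have hlt1 : p ⬝ᵥ (V A *ᵥ pt) < n := by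
        calc p ⬝ᵥ (V A *ᵥ pt) = ∑ i, p i * (V A *ᵥ pt) i := rfl
          _ < ∑ _i : Fin n, (1 : ℝ) := by
              have : Nonempty (Fin n) := ⟨⟨0, by omega⟩⟩
              exact Finset.sum_lt_sum_of_nonempty Finset.univ_nonempty fun i _ =>
                (sol_facts hb0 hp.1 hpp.1 hpp.2 i).2.1
          _ = n := by simp
      rw [ENNReal.ofReal_lt_ofReal_iff]
      · have := mul_lt_mul_of_pos_left hlt (one_div_pos.2 hn0)
        linarith
      · have : 1 / (n : ℝ) * (p ⬝ᵥ (V A *ᵥ pt)) < 1 := by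
          rw [one_div, inv_mul_lt_iff₀ hn0, mul_one]
          exact hlt1
        linarith
  refine ⟨?_, hsupp⟩
  rw [hsupp]
  exact ⟨⟨0, Metric.mem_closedBall_self (Real.sqrt_nonneg _)⟩,
    (convex_closedBall (0 : ℂ) _).isPreconnected⟩

end Pool.Agent.Results.MP_44eb1e_pr.SupportIsDisc
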